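import Pool.Agent.Helper25_CON.PDLem

set_option autoImplicit false

/-!
# Squad CON, module G_CLA: the classes of A_n
-/

noncomputable section

namespace Pool.Agent.CON.H4

open Pool.Agent.CON

/-- the alternating coefficients -/
def xc {n : ℕ} (m : ℕ) (i : Fin n) : ℤ := if i.1 < m then (-1) ^ i.1 else 0

lemma alt_sum (k : ℕ) : ∑ i ∈ Finset.range (k + k), ((-1 : ℤ)) ^ i = 0 := by
  induction k with
  | zero => simp
  | succ k ih =>
    rw [show k + 1 + (k + 1) = k + k + 1 + 1 by ring, Finset.sum_range_succ,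
      Finset.sum_range_succ, ih, pow_succ]
    ring

lemma filt {n m : ℕ} (hmn : m ≤ n) :
    (Finset.range n).filter (fun i => i < m) = Finset.range m := by
  ext i
  simp only [Finset.mem_filter, Finset.mem_range]
  omega

lemma xc_sum {n m : ℕ} (hmn : m ≤ n) (hm : Even m) : ∑ i : Fin n, xc m i = 0 := by
  obtain ⟨k, rfl⟩ := hm
  have : ∑ i : Fin n, xc (k + k) i =
      ∑ i ∈ Finset.range n, if i < k + k then ((-1 : ℤ)) ^ i else 0 :=
    Fin.sum_univ_eq_sum_range (fun i => if i < k + k then ((-1 : ℤ)) ^ i else 0) n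
  rw [this, ← Finset.sum_filter, filt hmn, alt_sum]

lemma xc_card {n m : ℕ} (hmn : m ≤ n) (d : ℤ) :
    ∑ i : Fin n, (if i.1 < m then d else 0) = m * d := by
  have : ∑ i : Fin n, (if i.1 < m then d else 0) =
      ∑ i ∈ Finset.range n, if i < m then d else 0 :=
    Fin.sum_univ_eq_sum_range (fun i => if i < m then d else 0) n
  rw [this, ← Finset.sum_filter, filt hmn, Finset.sum_const, Finset.card_range]
  simp

lemma xc_sq {n m : ℕ} (i : Fin n) : xc m i * xc m i = if i.1 < m then 1 else 0 := by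
  unfold xc
  split_ifs
  · rw [← pow_add, ← two_mul, pow_mul]; simp
  · ring

lemma xc_odd {n m : ℕ} {i : Fin n} (h : i.1 < m) : ¬ (2 : ℤ) ∣ xc m i := by
  unfold xc
  rw [if_pos h]
  rcases neg_one_pow_eq_or ℤ i.1 with h | h <;> rw [h] <;> norm_num

lemma xc_dvd {n m : ℕ} {i j : Fin n} (h : (i.1 < m ↔ j.1 < m)) :
    (2 : ℤ) ∣ xc m i - xc m j := by
  unfold xc
  by_cases h1 : i.1 < m
  · rw [if_pos h1, if_pos (h.1 h1)]
    rcases neg_one_pow_eq_or ℤ i.1 with h | h <;> rcases neg_one_pow_eq_or ℤ j.1 with h' | h' <;>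
      rw [h, h'] <;> norm_num
  · rw [if_neg h1, if_neg (fun h2 => h1 (h.2 h2))]
    simp

/-- the even residue -/
lemma resid (t d : ℤ) (hd : 0 < d) (hdo : ¬ (2 : ℤ) ∣ d) (ht : (2 : ℤ) ∣ t) :
    ∃ c : ℤ, (2 : ℤ) ∣ c ∧ -d < c ∧ c < d ∧ 2 * d ∣ t - c := by
  have h1 := Int.emod_add_mul_ediv (t + d) (2 * d)
  have h2 := Int.emod_nonneg (t + d) (show (2 * d) ≠ 0 by omega)
  have h3 := Int.emod_lt_of_pos (t + d) (show 0 < 2 * d by omega)
  set q := (t + d) / (2 * d)
  refine ⟨t - 2 * d * q, ?_, ?_, by linarith, ⟨q, by ring⟩⟩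
  · obtain ⟨a, ha⟩ := ht
    exact ⟨a - d * q, by rw [ha]; ring⟩
  · have h4 : -d ≤ t - 2 * d * q := by linarith
    rcases eq_or_lt_of_le h4 with h5 | h5
    · exfalso
      apply hdo
      obtain ⟨a, ha⟩ := ht
      exact ⟨d * q - a, by linarith⟩
    · exact h5

lemma ev_term {t c d : ℤ} (hc1 : -d < c) (hc2 : c < d) (h : 2 * d ∣ t - c) :
    0 ≤ t * (t - c) := by
  obtain ⟨k, hk⟩ := h
  have ht : t = c + 2 * d * k := by linarith
  rcases lt_trichotomy k 0 with h | h | h
  · have : t - c < 0 := by rw [hk]; nlinarith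
    have h2 : t < 0 := by rw [ht]; nlinarith
    nlinarith
  · rw [hk, h]; simp
  · have : 0 < t - c := by rw [hk]; nlinarith
    have h2 : 0 < t := by rw [ht]; nlinarith
    nlinarith

lemma odd_term {t c d : ℤ} (hc1 : -d < c) (hc2 : c < d) (h : d ∣ t - c) (hne : t - c ≠ 0) :
    d ≤ t * (t - c) := by
  obtain ⟨k, hk⟩ := h
  have ht : t = c + d * k := by linarith
  rcases lt_trichotomy k 0 with h | h | h
  · have h1 : t - c ≤ -d := by rw [hk]; nlinarith
    have h2 : t ≤ -1 := by
      have : t < 0 := by linarith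
      omega
    nlinarith
  · rw [h] at hk; exact absurd (by simpa using hk) hne
  · have h1 : d ≤ t - c := by rw [hk]; nlinarith
    have h2 : 1 ≤ t := by
      have : 0 < t := by linarith
      omega
    nlinarith

/-- the arithmetic core -/
lemma core {n m : ℕ} (hmn : m ≤ n) (t : Fin n → ℤ) (d : ℤ) (hd : 0 < d) (hdo : ¬ (2 : ℤ) ∣ d)
    (hT : (2 : ℤ) ∣ ∑ i, t i) (h1 : ∀ i, i.1 < m → d ∣ t i + ∑ j, t j)
    (ho : ∀ i : Fin n, i.1 < m → ¬ (2 : ℤ) ∣ t i)
    (h2 : ∀ i : Fin n, ¬ i.1 < m → 2 * d ∣ t i + ∑ j, t j) :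
    m * d ≤ (∑ i, t i) * (∑ i, t i) + ∑ i, t i * t i := by
  set T := ∑ i, t i with hTdef
  obtain ⟨c, hc, hc1, hc2, hc3⟩ := resid (-T) d hd hdo ((dvd_neg).2 hT)
  have e : T * T + ∑ i, t i * t i = (-T) * (-T - c) + ∑ i, t i * (t i - c) := by
    have : ∑ i, t i * (t i - c) = ∑ i, t i * t i - c * T := by
      rw [hTdef, Finset.mul_sum, ← Finset.sum_sub_distrib]
      exact Finset.sum_congr rfl fun i _ => by ring
    rw [this]; ring
  rw [e]
  have h0 := ev_term hc1 hc2 hc3
  have hs : m * d ≤ ∑ i, t i * (t i - c) := by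
    rw [← xc_card hmn d]
    apply Finset.sum_le_sum
    intro i _
    split_ifs with h
    · apply odd_term hc1 hc2
      · have : t i - c = (t i + T) + (-T - c) := by ring
        rw [this]
        exact dvd_add (h1 i h) ((Dvd.intro_left 2 rfl).trans hc3)
      · intro h3
        apply ho i h
        rw [show t i = c by linarith]
        exact hc
    · apply ev_term hc1 hc2
      have : t i - c = (t i + T) + (-T - c) := by ring
      rw [this]
      exact dvd_add (h2 i h) hc3
  linarith

/-- module G_CLA -/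
theorem g_cla : G_CLA := by
  intro M _ b C s n m v hb hC hs hv hA hm1 hme hmn
  obtain ⟨hvC, hvs⟩ := hv
  have hsp := hC.pos
  have hv2 : ∀ i, b (v i) (v i) = 2 * s := fun i => hC.norm _ (hvC i)
  -- products
  have hb1 : ∀ (t : Fin n → ℤ) (j : Fin n), b (∑ i, t i • v i) (v j) = s * (t j + ∑ i, t i) := by
    intro t j
    rw [hb.sum_left]
    have : ∀ i, b (t i • v i) (v j) = s * t i + if i = j then s * t i else 0 := by
      intro i
      rw [hb.zsmul_left]
      split_ifs with h
      · rw [h, hv2]; ring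
      · rw [hvs i j h]; ring
    rw [Finset.sum_congr rfl fun i _ => this i, Finset.sum_add_distrib, ← Finset.mul_sum,
      Finset.sum_ite_eq' Finset.univ j]
    simp
    ring
  have hbb : ∀ t : Fin n → ℤ, b (∑ i, t i • v i) (∑ i, t i • v i) =
      s * ((∑ i, t i) * (∑ i, t i) + ∑ i, t i * t i) := by
    intro t
    rw [hb.sum_right]
    have : ∀ i, b (∑ i, t i • v i) (t i • v i) = s * (t i * t i) + s * ((∑ i, t i) * t i) := by
      intro i
      rw [hb.zsmul_right, hb1]; ring
    rw [Finset.sum_congr rfl fun i _ => this i, Finset.sum_add_distrib, ← Finset.mul_sum,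
      ← Finset.mul_sum, ← Finset.mul_sum]
    ring
  have hsub : ∀ t : Fin n → ℤ, ∑ i, t i • v i ∈ AddSubgroup.closure C := by
    intro t
    exact AddSubgroup.sum_mem _ fun i _ =>
      AddSubgroup.zsmul_mem _ (AddSubgroup.subset_closure (hvC i)) _
  -- coordinates
  have hco : ∀ z ∈ AddSubgroup.closure C, ∃ t : Fin n → ℤ, z = ∑ i, t i • v i := by
    have hvi : ∀ i, v i = ∑ j, (Pi.single i 1 : Fin n → ℤ) j • v j := by
      intro i
      rw [Finset.sum_eq_single i]
      · simp
      · intro j _ hj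
        rw [Pi.single_eq_of_ne hj]; simp
      · intro h; exact absurd (Finset.mem_univ _) h
    intro z hz
    induction hz using AddSubgroup.closure_induction with
    | mem z hz =>
      rcases hA z hz with ⟨i, h | h⟩ | ⟨i, j, _, h⟩
      · exact ⟨Pi.single i 1, by rw [h]; exact hvi i⟩
      · refine ⟨- Pi.single i 1, ?_⟩
        rw [h]
        conv_lhs => rw [hvi i]
        rw [← Finset.sum_neg_distrib]
        exact Finset.sum_congr rfl fun j _ => by rw [Pi.neg_apply, neg_smul]
      · refine ⟨Pi.single i 1 - Pi.single j 1, ?_⟩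
        rw [h]
        conv_lhs => rw [hvi i, hvi j]
        rw [← Finset.sum_sub_distrib]
        exact Finset.sum_congr rfl fun l _ => by rw [Pi.sub_apply, sub_smul]
    | zero => exact ⟨0, by simp⟩
    | add x y _ _ hx hy =>
      obtain ⟨t, ht⟩ := hx
      obtain ⟨u, hu⟩ := hy
      refine ⟨t + u, ?_⟩
      rw [ht, hu, ← Finset.sum_add_distrib]
      exact Finset.sum_congr rfl fun l _ => by rw [Pi.add_apply, add_smul]
    | neg x _ hx =>
      obtain ⟨t, ht⟩ := hx
      refine ⟨-t, ?_⟩
      rw [ht, ← Finset.sum_neg_distrib]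
      exact Finset.sum_congr rfl fun l _ => by rw [Pi.neg_apply, neg_smul]
  have hX0 := xc_sum hmn hme
  have hXX : b (∑ i, xc m i • v i) (∑ i, xc m i • v i) = s * m := by
    rw [hbb, hX0, Finset.sum_congr rfl fun i _ => xc_sq i, xc_card hmn 1]
    ring
  have hso : (2 : ℤ) ∣ s - 1 := by omega
  refine ⟨∑ i, xc m i • v i, hsub _, ?_, ?_, ?_⟩
  · rw [hXX]
    obtain ⟨k, rfl⟩ := hme
    obtain ⟨a, ha⟩ := hso
    refine ⟨k * a, ?_⟩
    have : s = 2 * a + 1 := by linarith
    rw [this]; push_cast; ring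
  · have hn : 0 < n := by omega
    refine ⟨v ⟨0, hn⟩, AddSubgroup.subset_closure (hvC _), ?_⟩
    rw [hb1, hX0, add_zero]
    unfold xc
    rw [if_pos (show (⟨0, hn⟩ : Fin n).1 < m from hm1)]
    simpa using hs
  · intro z hz ρ hρ hρ4 hall
    obtain ⟨u, rfl⟩ := hco z hz
    have hXz : ∑ i, xc m i • v i + (2 : ℤ) • ∑ i, u i • v i =
        ∑ i, (xc m i + 2 * u i) • v i := by
      rw [Finset.smul_sum, ← Finset.sum_add_distrib]
      exact Finset.sum_congr rfl fun i _ => by rw [add_smul, mul_smul]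
    rw [hXz] at hall ⊢
    set t : Fin n → ℤ := fun i => xc m i + 2 * u i with ht
    have htT : ∑ i, t i = 2 * ∑ i, u i := by
      rw [ht, Finset.sum_add_distrib, hX0, zero_add, Finset.mul_sum]
    obtain ⟨ρ', hρ'⟩ : ∃ ρ', ρ = 2 * ρ' := ⟨ρ / 2, by omega⟩
    have hρo : ¬ (2 : ℤ) ∣ ρ' := by omega
    have hρp : 0 < ρ' := by omega
    -- g and d
    set g : ℤ := (Int.gcd s ρ' : ℤ) with hg
    have hgp : 0 < g := by
      rw [hg]; exact_mod_cast Int.gcd_pos_of_ne_zero_left _ hsp.ne'
    obtain ⟨s', hs'⟩ : g ∣ s := Int.gcd_dvd_left _ _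
    obtain ⟨d, hd⟩ : g ∣ ρ' := Int.gcd_dvd_right _ _
    have hdp : 0 < d := by
      by_contra h
      push Not at h
      have : g * d ≤ 0 := mul_nonpos_of_nonneg_of_nonpos hgp.le h
      rw [← hd] at this
      omega
    have hs'p : 0 < s' := by
      by_contra h
      push Not at h
      have : g * s' ≤ 0 := mul_nonpos_of_nonneg_of_nonpos hgp.le h
      rw [← hs'] at this
      omega
    have hdo : ¬ (2 : ℤ) ∣ d := by
      intro h
      apply hρo
      rw [hd]
      exact h.mul_left _
    have hs'o : ¬ (2 : ℤ) ∣ s' := by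
      intro h
      apply hs
      rw [hs']
      exact h.mul_left _
    have hcop : IsCoprime d s' := by
      have h1 : Int.gcd s ρ' = Int.gcd (g * s') (g * d) := by rw [← hs', ← hd]
      rw [Int.gcd_mul_left] at h1
      have h2 : (Int.gcd s ρ' : ℤ) = g.natAbs * (Int.gcd s' d : ℤ) := by
        rw [h1]; push_cast; rfl
      rw [← hg, Int.natCast_natAbs, abs_of_pos hgp] at h2
      have h3 : (Int.gcd s' d : ℤ) = 1 := by
        have : g * 1 = g * (Int.gcd s' d : ℤ) := by rw [mul_one]; exact h2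
        exact (mul_left_cancel₀ hgp.ne' this).symm
      have h4 : Int.gcd d s' = 1 := by
        rw [Int.gcd_comm]; exact_mod_cast h3
      exact Int.isCoprime_iff_gcd_eq_one.2 h4
    -- divisibility by d
    have k1 : ∀ a : ℤ, ρ' ∣ s * a → d ∣ a := by
      intro a ha
      rw [hd, hs', mul_assoc] at ha
      exact hcop.dvd_of_dvd_mul_left ((mul_dvd_mul_iff_left hgp.ne').1 ha)
    have k2 : ∀ a : ℤ, ρ ∣ s * a → 2 * d ∣ a := by
      intro a ha
      have h1 : d ∣ a := k1 a ((Dvd.intro_left 2 hρ'.symm).trans ha)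
      have h2 : (2 : ℤ) ∣ a := by
        have h3 : (2 : ℤ) ∣ s * a := (Dvd.intro ρ' hρ'.symm).trans ha
        rcases Int.prime_two.dvd_or_dvd h3 with h | h
        · exact absurd h hs
        · exact h
      have h4 : IsCoprime (2 : ℤ) d := by
        rw [Int.isCoprime_iff_gcd_eq_one]
        have := (Nat.coprime_primes Nat.prime_two Nat.prime_two)
        have h5 : Int.gcd 2 d ∣ 2 := by
          have := Int.gcd_dvd_left 2 d
          exact_mod_cast this
        rcases (Nat.dvd_prime Nat.prime_two).1 h5 with h6 | h6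
        · exact h6
        · exfalso
          apply hdo
          have := Int.gcd_dvd_right 2 d
          rw [h6] at this
          exact_mod_cast this
      exact h4.mul_dvd h2 h1
    rw [hbb]
    have hcore := core hmn t d hdp hdo ⟨_, htT⟩
      (by
        intro i _
        apply k1
        have h1 := hall ((2 : ℤ) • v i) (AddSubgroup.zsmul_mem _
          (AddSubgroup.subset_closure (hvC i)) _) (by
            rw [hb.zsmul_right]; exact Dvd.intro _ rfl)
        rw [hb.zsmul_right, hb1, hρ'] at h1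
        exact (mul_dvd_mul_iff_left two_ne_zero).1 h1)
      (by
        intro i hi h
        apply xc_odd hi
        have : xc m i = t i - 2 * u i := by rw [ht]; ring
        rw [this]
        exact dvd_sub h (Dvd.intro _ rfl))
      (by
        intro i hi
        apply k2
        have h1 := hall (v i) (AddSubgroup.subset_closure (hvC i)) (by
          rw [hb1, hX0, add_zero]
          unfold xc
          rw [if_neg hi]; simp)
        rwa [hb1] at h1)
    have hfin : (m : ℤ) / 2 * ρ = g * (m * d) := by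
      obtain ⟨k, rfl⟩ := hme
      have : ((k + k : ℕ) : ℤ) / 2 = k := by push_cast; omega
      rw [this, hρ', hd]; push_cast; ring
    rw [hfin]
    have hgs : g ≤ s := by
      rw [hs']; nlinarith
    have hmd : 0 ≤ (m : ℤ) * d := by positivity
    calc g * (m * d) ≤ s * (m * d) := mul_le_mul_of_nonneg_right hgs hmd
      _ ≤ _ := mul_le_mul_of_nonneg_left hcore hsp.le

end Pool.Agent.CON.H4

end
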