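import Pool.Agent.Helper25_CON.Stmts
import Pool.Agent.Helper25_Cong.Lor

set_option autoImplicit false

/-!
# Squad CON, module U_GOD: an anisotropic integral form gives a uniform group
-/

noncomputable section

namespace Pool.Agent.CON.H4

open Pool.Agent.CON Pool.Agent.H25Cong

variable {n : ℕ}

/-! ### the definite form attached to a point of hyperbolic space -/

/-- the definite form -/
def Pv (v x y : V n) : ℝ := B x y + 2 * (B x v * B y v)

lemma Pv_add (v x y z : V n) : Pv v (x + y) z = Pv v x z + Pv v y z := by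
  unfold Pv; rw [B_add_left, B_add_left]; ring

lemma Pv_symm (v x y : V n) : Pv v x y = Pv v y x := by
  unfold Pv; rw [B_comm x y]; ring

lemma Pv_smul (v : V n) (t : ℝ) (x y : V n) : Pv v (t • x) y = t * Pv v x y := by
  unfold Pv; rw [B_smul_left, B_smul_left]; ring

lemma Pv_add_right (v x y z : V n) : Pv v x (y + z) = Pv v x y + Pv v x z := by
  rw [Pv_symm, Pv_add, Pv_symm v y, Pv_symm v z]

lemma Pv_smul_right (v : V n) (t : ℝ) (x y : V n) : Pv v x (t • y) = t * Pv v x y := by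
  rw [Pv_symm, Pv_smul, Pv_symm v y]

lemma Pv_ge {v : V n} (hv : B v v = -1) (x : V n) :
    |B x x| ≤ Pv v x x ∧ B x v ^ 2 ≤ Pv v x x := by
  have h := rev_cs (v := v) (by rw [hv]; norm_num) x
  rw [hv] at h
  have h0 := sq_nonneg (B x v)
  unfold Pv
  refine ⟨abs_le.2 ⟨by nlinarith, by nlinarith⟩, by nlinarith⟩

lemma Pv_nonneg {v : V n} (hv : B v v = -1) (x : V n) : 0 ≤ Pv v x x :=
  (abs_nonneg _).trans (Pv_ge hv x).1

lemma Pv_pos {v : V n} (hv : B v v = -1) {x : V n} (hx : x ≠ 0) : 0 < Pv v x x := by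
  rcases (Pv_nonneg hv x).lt_or_eq with h | h
  · exact h
  · exfalso
    obtain ⟨h1, h2⟩ := Pv_ge hv x
    rw [← h] at h1 h2
    have h3 : B x v = 0 := by
      have := sq_nonneg (B x v)
      exact pow_eq_zero_iff (two_ne_zero) |>.1 (le_antisymm h2 this)
    have h4 : B x x = 0 := abs_nonpos_iff.1 h1
    exact hx (perp_eq_zero (by rw [hv]; norm_num) h3 h4)

lemma Pv_cs {v : V n} (hv : B v v = -1) (x y : V n) :
    Pv v x y ^ 2 ≤ Pv v x x * Pv v y y := by
  rcases eq_or_ne y 0 with rfl | hy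
  · have : Pv v x 0 = 0 := by simp [Pv]
    rw [this]
    have : Pv v (0 : V n) 0 = 0 := by simp [Pv]
    rw [this]; simp
  · have hp := Pv_pos hv hy
    have h := Pv_nonneg hv (Pv v y y • x + (-Pv v x y) • y)
    have e : Pv v (Pv v y y • x + (-Pv v x y) • y) (Pv v y y • x + (-Pv v x y) • y) =
        Pv v y y * (Pv v x x * Pv v y y - Pv v x y ^ 2) := by
      rw [Pv_add, Pv_smul, Pv_smul, Pv_add_right, Pv_add_right, Pv_smul_right, Pv_smul_right,
        Pv_smul_right, Pv_smul_right, Pv_symm v y x]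
      ring
    rw [e] at h
    have := nonneg_of_mul_nonneg_right h hp
    linarith

/-- the involution -/
def th (v : V n) : V n →ₗ[ℝ] V n where
  toFun y := y + (2 * B y v) • v
  map_add' x y := by rw [B_add_left, mul_add, add_smul]; abel
  map_smul' t x := by
    rw [B_smul_left, RingHom.id_apply, smul_add, smul_smul]
    congr 2; ring

lemma th_apply (v y : V n) : th v y = y + (2 * B y v) • v := rfl

lemma B_th (v x y : V n) : B x (th v y) = Pv v x y := by
  rw [th_apply, B_add_right, B_smul_right]; unfold Pv; ring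

lemma th_th {v : V n} (hv : B v v = -1) (y : V n) : th v (th v y) = y := by
  rw [th_apply, th_apply, B_add_left, B_smul_left, hv]
  rw [add_assoc, ← add_smul]
  have : 2 * B y v + 2 * (B y v + 2 * B y v * -1) = 0 := by ring
  rw [this, zero_smul, add_zero]

/-- every functional is a product -/
lemma riesz (f : V n →ₗ[ℝ] ℝ) : ∃ w : V n, ∀ x, f x = B x w := by
  have epa : ∀ i j : Fin (n + 1), (ep i : V n) j = if j = i then 1 else 0 := by
    intro i j
    simp [ep, Pi.single_apply]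
  refine ⟨fun i => (if i = 0 then -1 else 1) * f (ep i), fun x => ?_⟩
  have hx : x = ∑ i, x i • (ep i : V n) := by
    ext j
    rw [Finset.sum_apply, Finset.sum_eq_single j]
    · rw [Pi.smul_apply, epa, if_pos rfl, smul_eq_mul, mul_one]
    · intro i _ hi
      rw [Pi.smul_apply, epa, if_neg hi.symm, smul_zero]
    · intro h; exact absurd (Finset.mem_univ _) h
  conv_lhs => rw [hx]
  rw [map_sum]
  unfold B
  show ∑ i, f (x i • (ep i : V n)) = ∑ i, x i * ((if i = 0 then -1 else 1) * f (ep i)) -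
    2 * (x 0 * ((if (0 : Fin (n + 1)) = 0 then -1 else 1) * f (ep 0)))
  rw [if_pos rfl]
  have : ∀ i, f (x i • (ep i : V n)) = x i * ((if i = 0 then -1 else 1) * f (ep i)) +
      if i = 0 then 2 * (x 0 * f (ep 0)) else 0 := by
    intro i
    rw [map_smul, smul_eq_mul]
    split_ifs with h
    · rw [h]; ring
    · ring
  rw [Finset.sum_congr rfl fun i _ => this i, Finset.sum_add_distrib,
    Finset.sum_ite_eq' Finset.univ (0 : Fin (n + 1)), if_pos (Finset.mem_univ _)]
  ring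

lemma B_nondeg {w : V n} (h : ∀ x : V n, B x w = 0) : w = 0 := by
  ext i
  have := h (ep i)
  rw [B_comm] at this
  by_cases hi : i = 0
  · subst hi
    rw [B_ep_zero] at this
    simpa using this
  · rw [B_ep _ hi] at this
    simpa using this

lemma lin_bd (L : V n →ₗ[ℝ] V n) (R : ℝ) : ∃ R' : ℝ, 0 ≤ R' ∧
    ∀ x : V n, (∀ i, |x i| ≤ R) → ∀ i, |L x i| ≤ R' := by
  refine ⟨‖LinearMap.toContinuousLinearMap L‖ * |R|, by positivity, fun x hx i => ?_⟩
  have h1 : ‖x‖ ≤ |R| := by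
    rw [pi_norm_le_iff_of_nonneg (abs_nonneg R)]
    intro i
    exact (hx i).trans (le_abs_self R)
  have h2 : ‖L x‖ ≤ ‖LinearMap.toContinuousLinearMap L‖ * ‖x‖ :=
    (LinearMap.toContinuousLinearMap L).le_opNorm x
  calc |L x i| ≤ ‖L x‖ := norm_le_pi_norm (L x) i
    _ ≤ _ := h2
    _ ≤ _ := mul_le_mul_of_nonneg_left h1 (norm_nonneg _)

/-! ### the lattice in coordinates -/

section lattice

variable (b0 : Module.Basis (Fin (n + 1)) ℝ (V n))

/-- the vector with integral coordinates z -/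
def ph (z : Fin (n + 1) → ℤ) : V n := ∑ i, (z i : ℝ) • b0 i

lemma ph_add (x y : Fin (n + 1) → ℤ) : ph b0 (x + y) = ph b0 x + ph b0 y := by
  unfold ph
  rw [← Finset.sum_add_distrib]
  exact Finset.sum_congr rfl fun i _ => by rw [Pi.add_apply, Int.cast_add, add_smul]

/-- as a homomorphism -/
def phH : (Fin (n + 1) → ℤ) →+ V n where
  toFun := ph b0
  map_zero' := by simp [ph]
  map_add' := ph_add b0

lemma ph_zsmul (k : ℤ) (x : Fin (n + 1) → ℤ) : ph b0 (k • x) = (k : ℝ) • ph b0 x := by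
  have := map_zsmul (phH b0) k x
  rw [Int.cast_smul_eq_zsmul]
  exact this

lemma ph_sum {ι : Type*} (s : Finset ι) (f : ι → Fin (n + 1) → ℤ) :
    ph b0 (∑ i ∈ s, f i) = ∑ i ∈ s, ph b0 (f i) := map_sum (phH b0) f s

lemma ph_single (i : Fin (n + 1)) : ph b0 (Pi.single i 1) = b0 i := by
  unfold ph
  rw [Finset.sum_eq_single i]
  · simp
  · intro j _ hj
    rw [Pi.single_eq_of_ne hj]; simp
  · intro h; exact absurd (Finset.mem_univ _) h

lemma repr_ph (z : Fin (n + 1) → ℤ) (i : Fin (n + 1)) : b0.repr (ph b0 z) i = z i := by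
  unfold ph
  rw [map_sum, Finsupp.finsetSum_apply, Finset.sum_eq_single i]
  · simp
  · intro j _ hj
    simp [hj]
  · intro h; exact absurd (Finset.mem_univ _) h

lemma ph_eq_zero {z : Fin (n + 1) → ℤ} (h : ph b0 z = 0) : z = 0 := by
  ext i
  have := repr_ph b0 z i
  rw [h] at this
  simpa using this.symm

lemma ph_mem (z : Fin (n + 1) → ℤ) : ph b0 z ∈ Submodule.span ℤ (Set.range b0) := by
  unfold ph
  refine Submodule.sum_mem _ fun i _ => ?_
  rw [Int.cast_smul_eq_zsmul]
  exact Submodule.smul_mem _ _ (Submodule.subset_span ⟨i, rfl⟩)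

lemma mem_ph {x : V n} (hx : x ∈ Submodule.span ℤ (Set.range b0)) : ∃ z, x = ph b0 z := by
  induction hx using Submodule.span_induction with
  | mem x hx => obtain ⟨i, rfl⟩ := hx; exact ⟨Pi.single i 1, (ph_single b0 i).symm⟩
  | zero => exact ⟨0, by simp [ph]⟩
  | add x y _ _ hx hy =>
    obtain ⟨z, rfl⟩ := hx
    obtain ⟨w, rfl⟩ := hy
    exact ⟨z + w, (ph_add b0 z w).symm⟩
  | smul k x _ hx =>
    obtain ⟨z, rfl⟩ := hx
    exact ⟨k • z, by rw [ph_zsmul, Int.cast_smul_eq_zsmul]⟩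

/-- the real extension of an integral linear map -/
def ex (ψ : (Fin (n + 1) → ℤ) →ₗ[ℤ] (Fin (n + 1) → ℤ)) : V n →ₗ[ℝ] V n :=
  b0.constr ℝ fun i => ph b0 (ψ (Pi.single i 1))

lemma ex_b (ψ : (Fin (n + 1) → ℤ) →ₗ[ℤ] (Fin (n + 1) → ℤ)) (i : Fin (n + 1)) :
    ex b0 ψ (b0 i) = ph b0 (ψ (Pi.single i 1)) := by
  unfold ex
  rw [Module.Basis.constr_basis]

lemma sum_single (z : Fin (n + 1) → ℤ) : z = ∑ i, z i • (Pi.single i 1 : Fin (n + 1) → ℤ) := by
  ext j
  rw [Finset.sum_apply, Finset.sum_eq_single j]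
  · simp
  · intro i _ hi
    simp [hi.symm]
  · intro h; exact absurd (Finset.mem_univ _) h

lemma ex_ph (ψ : (Fin (n + 1) → ℤ) →ₗ[ℤ] (Fin (n + 1) → ℤ)) (z : Fin (n + 1) → ℤ) :
    ex b0 ψ (ph b0 z) = ph b0 (ψ z) := by
  conv_rhs => rw [sum_single z]
  rw [map_sum, ph_sum]
  conv_lhs => unfold ph
  rw [map_sum]
  refine Finset.sum_congr rfl fun i _ => ?_
  rw [map_smul, map_smul, ph_zsmul, ex_b]

lemma ex_comp (ψ χ : (Fin (n + 1) → ℤ) →ₗ[ℤ] (Fin (n + 1) → ℤ)) (h : ∀ z, ψ (χ z) = z) :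
    ex b0 ψ ∘ₗ ex b0 χ = LinearMap.id := by
  apply b0.ext
  intro i
  rw [LinearMap.comp_apply, ex_b, ex_ph, h, ph_single]
  rfl

lemma int_ph {c : ℝ} (hint : ∀ i j, ∃ k : ℤ, B (b0 i) (b0 j) = c * k)
    (z w : Fin (n + 1) → ℤ) : ∃ k : ℤ, B (ph b0 z) (ph b0 w) = c * k := by
  choose K hK using hint
  refine ⟨∑ i, ∑ j, z i * (w j * K i j), ?_⟩
  unfold ph
  rw [B_sum_left]
  push_cast
  rw [Finset.mul_sum]
  refine Finset.sum_congr rfl fun i _ => ?_
  rw [B_smul_left, B_sum_right, Finset.mul_sum, Finset.mul_sum]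
  refine Finset.sum_congr rfl fun j _ => ?_
  rw [B_smul_right, hK]; ring

lemma det_le {v : V n} (hv : B v v = -1) :
    (Matrix.of fun i j => Pv v (b0 i) (b0 j)).det ≤
      |(Matrix.of fun i j => B (b0 i) (b0 j)).det| := by
  have h1 : (Matrix.of fun i j => Pv v (b0 i) (b0 j)) =
      (Matrix.of fun i j => B (b0 i) (b0 j)) * LinearMap.toMatrix b0 b0 (th v) := by
    ext i j
    rw [Matrix.mul_apply]
    simp only [Matrix.of_apply, LinearMap.toMatrix_apply]
    rw [← B_th]
    conv_lhs => rw [← b0.sum_repr (th v (b0 j))]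
    rw [B_sum_right]
    exact Finset.sum_congr rfl fun k _ => by rw [B_smul_right]; ring
  have h2 : LinearMap.toMatrix b0 b0 (th v) * LinearMap.toMatrix b0 b0 (th v) = 1 := by
    rw [← LinearMap.toMatrix_comp b0 b0 b0,
      show (th v) ∘ₗ (th v) = LinearMap.id from LinearMap.ext (th_th hv), LinearMap.toMatrix_id]
  have h3 := congrArg Matrix.det h2
  rw [Matrix.det_mul, Matrix.det_one] at h3
  have h4 : |(LinearMap.toMatrix b0 b0 (th v)).det| = 1 := by
    have h5 : |(LinearMap.toMatrix b0 b0 (th v)).det| * |(LinearMap.toMatrix b0 b0 (th v)).det|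
        = 1 := by rw [← abs_mul, h3, abs_one]
    nlinarith [abs_nonneg (LinearMap.toMatrix b0 b0 (th v)).det]
  rw [h1, Matrix.det_mul]
  refine (le_abs_self _).trans ?_
  rw [abs_mul, h4, mul_one]

lemma fin_le {v : V n} (hv : B v v = -1) (K : ℝ) :
    {z : Fin (n + 1) → ℤ | Pv v (ph b0 z) (ph b0 z) ≤ K}.Finite := by
  have hr : ∀ i, ∃ w : V n, ∀ x, b0.coord i x = B x w := fun i => riesz (b0.coord i)
  choose w hw using hr
  set N : Fin (n + 1) → ℤ := fun i => ⌈K * Pv v (th v (w i)) (th v (w i))⌉ with hN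
  refine (Set.finite_Icc (-N) N).subset ?_
  intro z hz
  have hz' : Pv v (ph b0 z) (ph b0 z) ≤ K := hz
  have hb : ∀ i, (z i : ℝ) ^ 2 ≤ K * Pv v (th v (w i)) (th v (w i)) := by
    intro i
    have h1 : (z i : ℝ) = Pv v (ph b0 z) (th v (w i)) := by
      rw [← B_th, th_th hv, ← hw i, Module.Basis.coord_apply, repr_ph]
    rw [h1]
    exact (Pv_cs hv _ _).trans (mul_le_mul_of_nonneg_right hz' (Pv_nonneg hv _))
  have hc : ∀ i, z i ^ 2 ≤ N i := by
    intro i
    have := (hb i).trans (Int.le_ceil _)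
    exact_mod_cast this
  constructor
  · intro i
    have h1 := hc i
    show -N i ≤ z i
    nlinarith [Int.le_self_sq (-(z i))]
  · intro i
    exact (Int.le_self_sq _).trans (hc i)

end lattice

/-- module U_GOD -/
theorem u_god (hRED : U_RED) : U_GOD := by
  intro n Γ Λ hΛ haniso hcomm
  obtain ⟨b0, c, hc, hint, hspan⟩ := hΛ
  obtain ⟨R, hR⟩ := hRED (n + 1) c |(Matrix.of fun i j => B (b0 i) (b0 j)).det| hc
  have key : ∀ v : V n, B v v = -1 → ∃ b' : Module.Basis (Fin (n + 1)) ℤ (Fin (n + 1) → ℤ),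
      ∀ i, Pv v (ph b0 (b' i)) (ph b0 (b' i)) ≤ R := by
    intro v hv
    refine hR (Fin (n + 1) → ℤ) (fun x y => Pv v (ph b0 x) (ph b0 y))
      (Pi.basisFun ℤ (Fin (n + 1))) ?_ ?_ ?_ ?_ ?_
    · intro x y z
      show Pv v (ph b0 (x + y)) (ph b0 z) = _
      rw [ph_add, Pv_add]
    · intro x y
      exact Pv_symm _ _ _
    · intro K
      exact fin_le b0 hv K
    · intro x hx
      refine le_trans ?_ (Pv_ge hv (ph b0 x)).1
      obtain ⟨k, hk⟩ := int_ph b0 hint x x
      rw [hk]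
      have hk0 : k ≠ 0 := by
        rintro rfl
        apply hx
        apply ph_eq_zero b0
        apply haniso _ (by rw [hspan]; exact ph_mem b0 x)
        rw [hk]; simp
      rw [abs_mul, abs_of_pos hc]
      have : (1 : ℝ) ≤ |(k : ℝ)| := by
        rw [← Int.cast_abs]
        exact_mod_cast Int.one_le_abs hk0
      nlinarith
    · have e : (Matrix.of fun i j => Pv v (ph b0 (Pi.basisFun ℤ (Fin (n + 1)) i))
          (ph b0 (Pi.basisFun ℤ (Fin (n + 1)) j))) = Matrix.of fun i j => Pv v (b0 i) (b0 j) := by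
        ext i j
        simp only [Matrix.of_apply, Pi.basisFun_apply, ph_single]
      rw [e]
      exact det_le b0 hv
  have step : ∀ K : Fin (n + 1) → Fin (n + 1) → ℤ, ∃ RK : ℝ, 0 ≤ RK ∧
      ∀ (v : V n) (b' : Module.Basis (Fin (n + 1)) ℤ (Fin (n + 1) → ℤ)), B v v = -1 →
        (∀ i j, B (ph b0 (b' i)) (ph b0 (b' j)) = c * K i j) →
        (∀ i, Pv v (ph b0 (b' i)) (ph b0 (b' i)) ≤ R) →
        ∃ γ ∈ OLat Λ, ∀ i, |γ v i| ≤ RK := by
    intro K
    by_cases h : ∃ bK : Module.Basis (Fin (n + 1)) ℤ (Fin (n + 1) → ℤ),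
        ∀ i j, B (ph b0 (bK i)) (ph b0 (bK j)) = c * K i j
    · obtain ⟨bK, hbK⟩ := h
      set T : V n →ₗ[ℝ] V n := LinearMap.pi fun i =>
        { toFun := fun w => B (ph b0 (bK i)) w
          map_add' := fun x y => B_add_right _ _ _
          map_smul' := fun t x => B_smul_right _ _ _ } with hT
      have hTa : ∀ w i, T w i = B (ph b0 (bK i)) w := fun w i => rfl
      have hTinj : Function.Injective T := by
        rw [← LinearMap.ker_eq_bot, LinearMap.ker_eq_bot']
        intro w hw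
        have h1 : ∀ i, B (ph b0 (bK i)) w = 0 := by
          intro i; rw [← hTa, hw]; rfl
        have h2 : ∀ z, B (ph b0 z) w = 0 := by
          intro z
          rw [← bK.sum_repr z, ph_sum, B_sum_left]
          refine Finset.sum_eq_zero fun i _ => ?_
          rw [ph_zsmul, B_smul_left, h1, mul_zero]
        apply B_nondeg
        intro x
        rw [← b0.sum_repr x, B_sum_left]
        refine Finset.sum_eq_zero fun i _ => ?_
        rw [B_smul_left, ← ph_single b0 i, h2, mul_zero]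
      set e := LinearEquiv.ofInjectiveEndo T hTinj with he
      have hee : ∀ w, e.symm (T w) = w := by
        intro w
        rw [show T w = e w from rfl, LinearEquiv.symm_apply_apply]
      obtain ⟨RK, h0, hRK⟩ := lin_bd e.symm.toLinearMap (Real.sqrt R)
      refine ⟨RK, h0, ?_⟩
      intro v b' hv hG hP
      set ψ := bK.equiv b' (Equiv.refl _) with hψ
      have hψb : ∀ i, ψ (bK i) = b' i := by
        intro i; rw [hψ, Module.Basis.equiv_apply]; rfl
      set g : V n ≃ₗ[ℝ] V n := LinearEquiv.ofLinear (ex b0 ψ.toLinearMap)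
        (ex b0 ψ.symm.toLinearMap) (ex_comp b0 _ _ fun z => ψ.apply_symm_apply z)
        (ex_comp b0 _ _ fun z => ψ.symm_apply_apply z) with hg
      have hgp : ∀ z, g (ph b0 z) = ph b0 (ψ z) := fun z => ex_ph b0 _ z
      have hgi : ∀ z, g (ph b0 (ψ.symm z)) = ph b0 z := by
        intro z; rw [hgp, LinearEquiv.apply_symm_apply]
      have hB1 : ∀ z w, B (ph b0 (ψ z)) (ph b0 (ψ w)) = B (ph b0 z) (ph b0 w) := by
        intro z w
        rw [← bK.sum_repr z, ← bK.sum_repr w, map_sum, map_sum, ph_sum, ph_sum, ph_sum, ph_sum,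
          B_sum_left, B_sum_left]
        refine Finset.sum_congr rfl fun i _ => ?_
        rw [B_sum_right, B_sum_right]
        refine Finset.sum_congr rfl fun j _ => ?_
        rw [map_smul, map_smul, ph_zsmul, ph_zsmul, ph_zsmul, ph_zsmul, B_smul_left,
          B_smul_left, B_smul_right, B_smul_right, hψb, hψb, hG, hbK]
      have hB2 : ∀ x y, B (g x) (g y) = B x y := by
        intro x y
        rw [← b0.sum_repr x, ← b0.sum_repr y, map_sum, map_sum, B_sum_left, B_sum_left]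
        refine Finset.sum_congr rfl fun i _ => ?_
        rw [B_sum_right, B_sum_right]
        refine Finset.sum_congr rfl fun j _ => ?_
        rw [map_smul, map_smul, B_smul_left, B_smul_left, B_smul_right, B_smul_right,
          ← ph_single b0 i, ← ph_single b0 j, hgp, hgp, hB1]
      have hgO : g ∈ OLat Λ := by
        refine ⟨hB2, fun x => ⟨fun hx => ?_, fun hx => ?_⟩⟩
        · rw [hspan] at hx ⊢
          obtain ⟨z, hz⟩ := mem_ph b0 hx
          rw [← hgi z] at hz
          rw [g.injective hz]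
          exact ph_mem b0 _
        · rw [hspan] at hx ⊢
          obtain ⟨z, rfl⟩ := mem_ph b0 hx
          rw [hgp]
          exact ph_mem b0 _
      refine ⟨g⁻¹, (OLat Λ).inv_mem hgO, ?_⟩
      have h1 : g⁻¹ v = e.symm.toLinearMap (T (g⁻¹ v)) := (hee _).symm
      rw [h1]
      apply hRK
      intro i
      rw [hTa, ← hB2, hgp, hψb, ap_inv]
      exact Real.abs_le_sqrt ((Pv_ge hv _).2.trans (hP i))
    · exact ⟨0, le_rfl, fun v b' _ hG _ => absurd ⟨b', hG⟩ h⟩
  choose RK hRK0 hRK using step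
  set N : ℤ := ⌈3 * R / c⌉ with hN
  set F : Finset (Fin (n + 1) → Fin (n + 1) → ℤ) :=
    (Set.finite_Icc (fun _ _ => -N : Fin (n + 1) → Fin (n + 1) → ℤ) (fun _ _ => N)).toFinset
  set R1 : ℝ := ∑ K ∈ F, RK K with hR1
  have hO : ∀ v : V n, B v v = -1 → ∃ γ ∈ OLat Λ, ∀ i, |γ v i| ≤ R1 := by
    intro v hv
    obtain ⟨b', hb'⟩ := key v hv
    have hk : ∀ i j, ∃ k : ℤ, B (ph b0 (b' i)) (ph b0 (b' j)) = c * k :=
      fun i j => int_ph b0 hint (b' i) (b' j)
    choose K hK using hk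
    obtain ⟨γ, hγ, hγ'⟩ := hRK K v b' hv hK hb'
    refine ⟨γ, hγ, fun i => (hγ' i).trans ?_⟩
    apply Finset.single_le_sum (fun K _ => hRK0 K)
    rw [Set.Finite.mem_toFinset]
    have hKb : ∀ i j, |(K i j : ℝ)| ≤ 3 * R / c := by
      intro i j
      rw [le_div_iff₀ hc]
      have h1 : |(K i j : ℝ)| * c = |B (ph b0 (b' i)) (ph b0 (b' j))| := by
        rw [hK, abs_mul, abs_of_pos hc, mul_comm]
      rw [h1]
      set x := ph b0 (b' i)
      set y := ph b0 (b' j)
      have hx := hb' i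
      have hy := hb' j
      have hx0 := Pv_nonneg hv x
      have hy0 := Pv_nonneg hv y
      have hR0 : 0 ≤ R := hx0.trans hx
      have a1 : |Pv v x y| ≤ R := by
        apply abs_le_of_sq_le_sq _ hR0
        refine (Pv_cs hv x y).trans ?_
        rw [sq]
        exact mul_le_mul hx hy hy0 hR0
      have a2 := (Pv_ge hv x).2.trans hx
      have a3 := (Pv_ge hv y).2.trans hy
      have a4 : |B x v * B y v| ≤ R := by
        rw [abs_le]
        constructor <;> nlinarith [sq_nonneg (B x v + B y v), sq_nonneg (B x v - B y v)]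
      have a5 : B x y = Pv v x y - 2 * (B x v * B y v) := by unfold Pv; ring
      rw [a5]
      rw [abs_le] at a1 a4 ⊢
      constructor <;> linarith [a1.1, a1.2, a4.1, a4.2]
    constructor
    · intro i j
      have h1 := (abs_le.1 (hKb i j)).1
      have h2 : -(N : ℝ) ≤ K i j := by
        have := Int.le_ceil (3 * R / c)
        linarith
      show -N ≤ K i j
      exact_mod_cast h2
    · intro i j
      have h1 := (abs_le.1 (hKb i j)).2
      have h2 : (K i j : ℝ) ≤ N := h1.trans (Int.le_ceil _)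
      show K i j ≤ N
      exact_mod_cast h2
  -- the group Γ
  have hfi : (Γ.subgroupOf (OLat Λ)).FiniteIndex := ⟨hcomm.1⟩
  have : Finite (OLat Λ ⧸ Γ.subgroupOf (OLat Λ)) := inferInstance
  have := Fintype.ofFinite (OLat Λ ⧸ Γ.subgroupOf (OLat Λ))
  have hq : ∀ q : OLat Λ ⧸ Γ.subgroupOf (OLat Λ), ∃ R' : ℝ, 0 ≤ R' ∧
      ∀ x : V n, (∀ i, |x i| ≤ R1) →
        ∀ i, |((q.out : V n ≃ₗ[ℝ] V n)⁻¹).toLinearMap x i| ≤ R' :=
    fun q => lin_bd _ R1
  choose R' hR'0 hR' using hq
  refine ⟨∑ q, R' q, fun v hv => ?_⟩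
  obtain ⟨γ, hγ, hγ'⟩ := hO v hv
  set q : OLat Λ ⧸ Γ.subgroupOf (OLat Λ) := QuotientGroup.mk ⟨γ, hγ⟩ with hqd
  have h1 : (q.out)⁻¹ * ⟨γ, hγ⟩ ∈ Γ.subgroupOf (OLat Λ) := by
    rw [← QuotientGroup.eq]
    rw [QuotientGroup.out_eq']
  refine ⟨((q.out : V n ≃ₗ[ℝ] V n))⁻¹ * γ, ?_, fun i => ?_⟩
  · rw [Subgroup.mem_subgroupOf] at h1
    exact h1
  · exact (hR' q (γ v) hγ' i).trans
      (Finset.single_le_sum (fun q _ => hR'0 q) (Finset.mem_univ q))

end Pool.Agent.CON.H4

end
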